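import Pool.Agent.Y656.Main4

/-!
# Complete Bose-Einstein condensation of the dilute Bose gas with a hard core, for a fixed number
of particles, with a weak long-range hopping

`N` bosons on the torus of side `L` in dimension `n ≥ 3` with the Hamiltonian

`∑_i (-μ Δ_i) + ∑_i (∫ K - K *)_i + ∑_{i<j} v(|x_i - x_j|)`.

The pair potential `v ≥ 0` may be infinite in a ball (hard core) and is integrable outside of it.
In the thermodynamic limit at the density `ν ∈ [ρ/2, ρ]`, with a kernel `K` of total strength at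
most `ρ₀` and at least `c ρ^(g + n/2) (1 + √ρ |z|)^(-(n + σ))`, all states near the ground state
have the energy `(1 + o(1)) (scat / 2) ν² L^n` and the fraction `1 - o(1)` of the particles in the
condensate, as `ρ → 0`.

`scat n μ v` is twice the infimum of `μ ∫ |∇ f|² + (1/2) ∫ v f²` over the `f` equal to `1` outside a
bounded set; for `n = 3` it is `8 π μ a`, where `a` is the scattering length.
-/

set_option autoImplicit false

open MeasureTheory
open scoped ENNReal

namespace Pool.Agent.Results.MP_4952d6_mp.HardCoreCompleteCondensation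

open Pool.Agent.W761.CB Pool.Agent.W761.CC

/-- **Complete condensation for hard cores.**  `n ≥ 3`, `μ, σ, c > 0`, `σ < n`, `g < n / 2`, and `v`
is a pair potential with values in `[0, ∞]` which is integrable outside a ball of radius `R₀` (in
particular a hard core of radius `R₀` plus an integrable function) and not zero almost everywhere.
The scattering constant `scat n μ v` is positive, and for every `ε > 0` there is `ρ₀ > 0` such that
for all `ρ ∈ (0, ρ₀]` there are `c₁ > 0` and `L₀` such that for all `L ≥ L₀`, all kernels `K` with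
`∫ K(z) min(1, |z|²) dz ≤ ρ₀` and `K(z) ≥ c ρ^(g + n/2) (1 + √ρ |z|)^(-(n + σ))`, all `N` with
`ρ / 2 ≤ N / L^n ≤ ρ` and all symmetric wave functions `Ψ` of `N` particles with norm one which
minimise the energy up to `c₁ L^(n - σ)`: the energy of `Ψ` is between `(1 - ε)` and `(1 + ε)` times
`(scat n μ v / 2) N² / L^n`, and at least `(1 - ε) N` particles are in the condensate. -/
theorem result (n : ℕ) (hn : 3 ≤ n) (μ σ g c R₀ : ℝ) (hμ : 0 < μ) (hσ : 0 < σ) (hσn : σ < n)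
    (hg : g < n / 2) (hc : 0 < c) (v : ℝ → ℝ≥0∞) (hv : Measurable v)
    (hv0 : ∫⁻ z : Fin n → ℝ, v (el z) ≠ 0)
    (hv1 : ∫⁻ z in {z : Fin n → ℝ | R₀ < el z}, v (el z) ≠ ⊤) :
    0 < scat n μ v ∧ ∀ ε : ℝ, 0 < ε → ∃ ρ₀ : ℝ, 0 < ρ₀ ∧ ∀ ρ : ℝ, 0 < ρ → ρ ≤ ρ₀ →
      ∃ c₁ L₀ : ℝ, 0 < c₁ ∧
      ∀ (L : ℝ) [Fact (0 < L)] (K : (Fin n → ℝ) → ℝ≥0∞), L₀ ≤ L → Measurable K →
      ∫⁻ z, K z * ENNReal.ofReal (min 1 (el z ^ 2)) ≤ ENNReal.ofReal ρ₀ →
      (∀ z, ENNReal.ofReal (c * ρ ^ (g + n / 2) * (1 + √ρ * el z) ^ (-(n + σ))) ≤ K z) →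
      ∀ N : ℕ, ρ / 2 * L ^ n ≤ N → (N : ℝ) ≤ ρ * L ^ n →
      ∀ Ψ : (Fin N → Tor n L) → ℂ, IsWf2 Ψ →
        (∀ Φ : (Fin N → Tor n L) → ℂ, IsWf Φ →
          enN (ENNReal.ofReal μ) K v Ψ ≤ enN (ENNReal.ofReal μ) K v Φ +
            ENNReal.ofReal (c₁ * L ^ (n - σ))) →
        ENNReal.ofReal ((1 - ε) * (scat n μ v / 2 * (N ^ 2 / L ^ n))) ≤
          enN (ENNReal.ofReal μ) K v Ψ ∧
        enN (ENNReal.ofReal μ) K v Ψ ≤
          ENNReal.ofReal ((1 + ε) * (scat n μ v / 2 * (N ^ 2 / L ^ n))) ∧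
        (1 - ε) * N ≤ condN Ψ :=
  Pool.Agent.Y656.hcoreC n μ σ g c R₀ v hn hμ hσ hσn hg hc hv hv0 hv1

end Pool.Agent.Results.MP_4952d6_mp.HardCoreCompleteCondensation
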