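import Pool.Agent.Y656.FinT

/-!
# Complete condensation on the healing length in the thermodynamic limit, for a hard core plus an
integrable potential

`N` bosons on the torus of side `L` in dimension `n ≥ 3` with the Hamiltonian of the problem,

`H = ∑_i (-μ Δ_i) + ∑_{i<j} v(|x_i - x_j|)`,

where `v` has values in `[0, ∞]` and is integrable outside of some ball (a hard core plus an
integrable potential); no other term is added.  The healing length at the density `ρ` is of order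
`ρ^(-1/2)`.  For every `ε > 0` and every `A`, for all small `ρ` and all `L ≥ ρ^(-1/2)` (in
particular in the thermodynamic limit at fixed `ρ`), the depletion of the ground state, and of all
states with nearly the same energy, is at most `ε` on all lengths up to `A ρ^(-1/2)`.
-/

set_option autoImplicit false

open MeasureTheory
open scoped ENNReal

namespace Pool.Agent.Results.MP_4952d6_mp.LocalCondensation

open Pool.Agent.W761.CB Pool.Agent.W761.CC Pool.Agent.Y656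

/-- **Complete condensation on the healing length.**  `n ≥ 3`, `μ > 0`, and `v` is a measurable pair
potential with values in `[0, ∞]`, not zero almost everywhere, such that `v(|z|)` is integrable over
`|z| > R₀`.  For all `ε, A > 0` there are `ρ₀, δ > 0` such that for all `ρ ∈ (0, ρ₀]`, all
`L ≥ ρ^(-1/2)`, all `N` with `ρ / 2 ≤ N / L^n ≤ ρ` and all symmetric wave functions `Ψ` of `N`
particles with norm one which minimise the energy up to `δ ρ² L^n` (for instance the ground state),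
with one particle density matrix `γ`:
`∫ γ(x, x + z) dx ≥ (1 - ε) N` for all `z` with `|z_c| ≤ A ρ^(-1/2)` for all `c`;
`∑_B |B|^(-1) ∫_B ∫_B γ(x, y) dx dy ≥ (1 - ε) N` for all `q ≥ 1` with `L / q ≤ A ρ^(-1/2)`,
where `B` runs over the `q^n` boxes of side `L / q`; and if `L ≤ A ρ^(-1/2)`, then
`L^(-n) ∫∫ γ(x, y) dx dy ≥ (1 - ε) N`. -/
theorem result (n : ℕ) (hn : 3 ≤ n) (μ R₀ : ℝ) (hμ : 0 < μ) (v : ℝ → ℝ≥0∞) (hv : Measurable v)
    (hv0 : ∫⁻ z : Fin n → ℝ, v (el z) ≠ 0)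
    (hvt : ∫⁻ z in {z : Fin n → ℝ | R₀ < el z}, v (el z) ≠ ⊤) :
    ∀ ε A : ℝ, 0 < ε → 0 < A → ∃ ρ₀ δ : ℝ, 0 < ρ₀ ∧ 0 < δ ∧
      ∀ ρ : ℝ, 0 < ρ → ρ ≤ ρ₀ → ∀ (L : ℝ) [Fact (0 < L)], 1 / √ρ ≤ L →
      ∀ N : ℕ, ρ / 2 * L ^ n ≤ N → (N : ℝ) ≤ ρ * L ^ n →
      ∀ Ψ : (Fin N → Tor n L) → ℂ, IsWf2 Ψ →
        (∀ Φ : (Fin N → Tor n L) → ℂ, IsWf Φ → enN (ENNReal.ofReal μ) (fun _ => 0) v Ψ ≤
          enN (ENNReal.ofReal μ) (fun _ => 0) v Φ + ENNReal.ofReal (δ * ρ ^ 2 * L ^ n)) →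
        (∀ z : Fin n → ℝ, (∀ c, |z c| ≤ A / √ρ) → (1 - ε) * N ≤ odN Ψ z) ∧
        (∀ q : ℕ, 1 ≤ q → L / q ≤ A / √ρ → (1 - ε) * N ≤ locN q Ψ) ∧
        (L ≤ A / √ρ → (1 - ε) * N ≤ condN Ψ) := by
  intro ε A hε hA
  obtain ⟨ρ₀, δ, h0, hδ, h⟩ := (offT n hn μ R₀ hμ v hv hv0 hvt).2 ε A hε hA
  exact ⟨ρ₀, δ, h0, hδ, fun ρ h1 h2 L _ h3 N h4 h5 Ψ h6 h7 =>
    (h ρ h1 h2 L h3 N h4 h5 Ψ h6 h7).2.2⟩

end Pool.Agent.Results.MP_4952d6_mp.LocalCondensation
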