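import Pool.Agent.Y656.FinI

/-!
# Bose-Einstein condensation of the dilute Bose gas with an integrable pair potential and a
long-range hopping weaker than the energy of third order

`N` bosons on the torus of side `L` in dimension `n ≥ 3` with the Hamiltonian

`∑_i (-μ Δ_i) + ∑_i (∫ K - K *)_i + ∑_{i<j} v(|x_i - x_j|)`.

The pair potential `v ≥ 0` is integrable on `ℝ^n` and has a finite range.  In the thermodynamic
limit at the density `ν ∈ [ρ/2, ρ]`, with a kernel `K` of total strength at most `ρ` and at least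
`c ρ^(3n/2 - 1 + κ) (1 + √ρ |z|)^(-(n + σ))`, all states near the ground state have the fraction
`1 - ρ^κ` of the particles in the condensate.

The total strength of the smallest kernel allowed, `c ρ^(3n/2 - 1 + κ) (1 + √ρ |z|)^(-(n + σ))`, is
a constant times `ρ^(n - 1 + κ)`.  For `n = 3` it is `ρ^(2 + κ)`: less than the energy of second
order (Lee, Huang and Yang) per particle, of order `ρ^(3/2)`, and less than the energy of third
order (Wu), of order `ρ^2 log ρ`.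
-/

set_option autoImplicit false

open MeasureTheory
open scoped ENNReal

namespace Pool.Agent.Results.MP_4952d6_mp.SoftWeakHopping

open Pool.Agent.W761.CB Pool.Agent.W761.CC

/-- **Condensation with a hopping weaker than the energy of third order.**  `n ≥ 3`, `μ, σ, c > 0`,
`σ < n`, `κ = 1 / (48 (n³ + 4 n²))`, and `v` is a pair potential with values in `[0, ∞]`, of range
at most `R₀`, with `0 < ∫ v(|z|) dz < ∞`.  There is `ρ₀ > 0` such that for all `ρ ∈ (0, ρ₀]` there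
are `c₁ > 0` and `L₀` such that for all `L ≥ L₀`, all kernels `K` with
`∫ K(z) min(1, |z|²) dz ≤ ρ` and `K(z) ≥ c ρ^(3n/2 - 1 + κ) (1 + √ρ |z|)^(-(n + σ))`, all `N` with
`ρ / 2 ≤ N / L^n ≤ ρ` and all symmetric wave functions `Ψ` of `N` particles with norm one which
minimise the energy up to `c₁ L^(n - σ)`, at least `(1 - ρ^κ) N` particles are in the
condensate. -/
theorem result (n : ℕ) (hn : 3 ≤ n) (μ σ c R₀ κ : ℝ) (hμ : 0 < μ) (hσ : 0 < σ) (hσn : σ < n)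
    (hκ : κ = 1 / (48 * (n ^ 3 + 4 * n ^ 2))) (hc : 0 < c)
    (v : ℝ → ℝ≥0∞) (hv : Measurable v) (hvR : ∀ r, R₀ < r → v r = 0)
    (hv0 : ∫⁻ z : Fin n → ℝ, v (el z) ≠ 0) (hvf : ∫⁻ z : Fin n → ℝ, v (el z) ≠ ⊤) :
    ∃ ρ₀ : ℝ, 0 < ρ₀ ∧ ∀ ρ : ℝ, 0 < ρ → ρ ≤ ρ₀ → ∃ c₁ L₀ : ℝ, 0 < c₁ ∧
      ∀ (L : ℝ) [Fact (0 < L)] (K : (Fin n → ℝ) → ℝ≥0∞), L₀ ≤ L → Measurable K →
      ∫⁻ z, K z * ENNReal.ofReal (min 1 (el z ^ 2)) ≤ ENNReal.ofReal ρ →
      (∀ z, ENNReal.ofReal (c * ρ ^ (3 * n / 2 - 1 + κ) * (1 + √ρ * el z) ^ (-(n + σ))) ≤ K z) →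
      ∀ N : ℕ, ρ / 2 * L ^ n ≤ N → (N : ℝ) ≤ ρ * L ^ n →
      ∀ Ψ : (Fin N → Tor n L) → ℂ, IsWf2 Ψ →
        (∀ Φ : (Fin N → Tor n L) → ℂ, IsWf Φ →
          enN (ENNReal.ofReal μ) K v Ψ ≤ enN (ENNReal.ofReal μ) K v Φ +
            ENNReal.ofReal (c₁ * L ^ (n - σ))) →
        (1 - ρ ^ κ) * N ≤ condN Ψ :=
  Pool.Agent.Y656.weakI n hn μ σ c R₀ κ hμ hσ hσn hκ hc v hv hvR hv0 hvf

end Pool.Agent.Results.MP_4952d6_mp.SoftWeakHopping
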